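import Pool.Agent.H50.NC.Targets

/-!
# FA: two adjacent neighbours of a side, one of them is a major (helper49)
-/

set_option autoImplicit false

namespace Pool.Agent.H49.NCK

open Pool.Agent.H48.ER Pool.Agent.H50.NC

variable {V : Type}

theorem al_adj {G : SimpleGraph V} {a : Fin 3 → V} {P : Fin 3 → Set V} {i j : Fin 3} {w : V}
    (h : Al G a P i w) (hm : a j ∈ P j) (hj : j ≠ i) : G.Adj w (a j) :=
  (h (a j) ⟨j, hj, hm⟩).2 ⟨j, hj, rfl⟩

theorem two_others : ∀ i : Fin 3, ∃ j k : Fin 3, j ≠ i ∧ k ≠ i ∧ j ≠ k := by decide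

/-- two adjacent vertices of the first type are in a complete subgraph -/
theorem al_al {G : SimpleGraph V} {a : Fin 3 → V} {P : Fin 3 → Set V}
    {i : Fin 3} {w w' : V} (hK : NK4 G) (hm : ∀ j, a j ∈ P j)
    (hadj : ∀ j k, j ≠ k → G.Adj (a j) (a k)) (h : Al G a P i w) (h' : Al G a P i w')
    (hw : G.Adj w w') : False := by
  obtain ⟨j, k, hj, hk, hjk⟩ := two_others i
  exact hK w w' (a j) (a k) hw (al_adj h (hm j) hj) (al_adj h (hm k) hk)
    (al_adj h' (hm j) hj) (al_adj h' (hm k) hk) (hadj j k hjk)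

theorem pf_FA (hTYP : T_TYP) (hABN : T_ABN) : T_FA := by
  intro V G a b n P i S w w' hH hP hK hS hw hw' hadj
  have ha : ∀ j, a j ∈ P j := fun j => hS.pr.1.a_mem j
  have hb : ∀ j, b j ∈ P j := fun j => hS.pr.1.b_mem j
  have haa : ∀ j k, j ≠ k → G.Adj (a j) (a k) := fun j k h =>
    (hS.pr.1.adj j k h _ (ha j) _ (ha k)).2 (Or.inl ⟨rfl, rfl⟩)
  have hbb : ∀ j k, j ≠ k → G.Adj (b j) (b k) := fun j k h =>
    (hS.pr.1.adj j k h _ (hb j) _ (hb k)).2 (Or.inr ⟨rfl, rfl⟩)
  rcases hTYP V G a b n P i S w hH hP hS hw with h | h | h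
  · rcases hTYP V G a b n P i S w' hH hP hS hw' with h' | h' | h'
    · exact (al_al hK ha haa h h' hadj).elim
    · exact absurd hadj (hABN V G a b n P i S w w' hH hS hw hw' h h')
    · exact Or.inr h'
  · rcases hTYP V G a b n P i S w' hH hP hS hw' with h' | h' | h'
    · exact absurd hadj.symm (hABN V G a b n P i S w' w hH hS hw' hw h' h)
    · exact (al_al hK hb hbb h h' hadj).elim
    · exact Or.inr h'
  · exact Or.inl h

end Pool.Agent.H49.NCK
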